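import Pool.Agent.D0H41.SG.Stm

set_option autoImplicit false

/-! Project SG (helper41), module CRT: one congruence class for all the conditions. -/

namespace Pool.Agent.D0H52.SG

open Pool.Agent.D0H41.SG

theorem cls_mul {n Q P : ℕ} (hco : Nat.Coprime Q P) (c b : Fin (n - 1) → ℤ) :
    ∃ c' : Fin (n - 1) → ℤ, ∀ a : Fin (n - 1) → ℤ, Cls (Q * P) c' a → Cls Q c a ∧ Cls P b a := by
  have h1 : IsCoprime (Q : ℤ) (P : ℤ) := Nat.isCoprime_iff_coprime.mpr hco
  obtain ⟨u, v, huv⟩ := h1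
  refine ⟨fun i => c i * (v * P) + b i * (u * Q), fun a ha => ⟨fun i => ?_, fun i => ?_⟩⟩
  · obtain ⟨w, hw⟩ := ha i
    refine ⟨P * w + (b i - c i) * u, ?_⟩
    push_cast at hw
    linear_combination hw + c i * huv
  · obtain ⟨w, hw⟩ := ha i
    refine ⟨Q * w + (c i - b i) * v, ?_⟩
    push_cast at hw
    linear_combination hw + b i * huv

theorem t_CRT : S_CRT := by
  intro n S t b q a0 hS hq hSq
  have key : ∀ T : Finset ℕ, (∀ p ∈ T, p.Prime) → (∀ p ∈ T, ¬ p ∣ q) →
      ∃ (Q : ℕ) (c : Fin (n - 1) → ℤ), 1 ≤ Q ∧ (∀ l : ℕ, l.Prime → l ∣ Q → l ∣ q ∨ l ∈ T) ∧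
        ∀ a : Fin (n - 1) → ℤ, Cls Q c a → Cls q a0 a ∧ ∀ p ∈ T, Cls (p ^ t p) (b p) a := by
    intro T
    induction T using Finset.induction_on with
    | empty =>
      intro _ _
      exact ⟨q, a0, hq, fun l _ h => Or.inl h, fun a ha => ⟨ha, fun p hp => by simp at hp⟩⟩
    | insert p T hpT ih =>
      intro h1 h2
      obtain ⟨Q, c, hQ, hQl, hQc⟩ := ih (fun l hl => h1 l (Finset.mem_insert_of_mem hl))
        (fun l hl => h2 l (Finset.mem_insert_of_mem hl))
      have hp : p.Prime := h1 p (Finset.mem_insert_self _ _)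
      have hpQ : ¬ p ∣ Q := by
        intro h
        rcases hQl p hp h with h3 | h3
        · exact h2 p (Finset.mem_insert_self _ _) h3
        · exact hpT h3
      have hco : Nat.Coprime Q (p ^ t p) :=
        (Nat.Coprime.pow_left (t p) ((Nat.Prime.coprime_iff_not_dvd hp).mpr hpQ)).symm
      obtain ⟨c', hc'⟩ := cls_mul (n := n) hco c (b p)
      refine ⟨Q * p ^ t p, c', Nat.mul_pos hQ (pow_pos hp.pos _), ?_, ?_⟩
      · intro l hl hlQ
        rcases (Nat.Prime.dvd_mul hl).mp hlQ with h3 | h3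
        · rcases hQl l hl h3 with h4 | h4
          · exact Or.inl h4
          · exact Or.inr (Finset.mem_insert_of_mem h4)
        · have h4 := hl.dvd_of_dvd_pow h3
          have h5 : l = p := (Nat.prime_dvd_prime_iff_eq hl hp).mp h4
          rw [h5]
          exact Or.inr (Finset.mem_insert_self _ _)
      · intro a ha
        obtain ⟨h3, h4⟩ := hc' a ha
        obtain ⟨h5, h6⟩ := hQc a h3
        refine ⟨h5, fun l hl => ?_⟩
        rcases Finset.mem_insert.mp hl with h7 | h7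
        · rw [h7]
          exact h4
        · exact h6 l h7
  obtain ⟨Q, c, hQ, -, hc⟩ := key S hS hSq
  exact ⟨Q, c, hQ, hc⟩

end Pool.Agent.D0H52.SG
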