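import Pool.Agent.D0H41.SG.Stm
import Pool.Agent.D0H41.SF.Basic

set_option autoImplicit false

/-! Project SG (helper41), module LOC: polynomials which split completely over the `p`-adic numbers. -/

open Polynomial

namespace Pool.Agent.D0H52.SG

open Pool.Agent.D0H41.SG Pool.Agent.D0H41.SF

/-- the roots: `n` different integers with sum zero -/
def rt (n : ℕ) (i : Fin n) : ℤ := if (i : ℕ) = 0 then -∑ j : Fin n, ((j : ℕ) : ℤ) else ((i : ℕ) : ℤ)

theorem rt_inj (n : ℕ) : Function.Injective (rt n) := by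
  have hT : (0 : ℤ) ≤ ∑ j : Fin n, ((j : ℕ) : ℤ) := Finset.sum_nonneg fun j _ => by positivity
  intro i j h
  unfold rt at h
  apply Fin.ext
  by_cases hi : (i : ℕ) = 0
  · by_cases hj : (j : ℕ) = 0
    · omega
    · rw [if_pos hi, if_neg hj] at h
      have : (0 : ℤ) < ((j : ℕ) : ℤ) := by exact_mod_cast Nat.pos_of_ne_zero hj
      linarith
  · by_cases hj : (j : ℕ) = 0
    · rw [if_neg hi, if_pos hj] at h
      have : (0 : ℤ) < ((i : ℕ) : ℤ) := by exact_mod_cast Nat.pos_of_ne_zero hi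
      linarith
    · rw [if_neg hi, if_neg hj] at h
      exact_mod_cast h

theorem rt_sum (n : ℕ) (hn : 1 ≤ n) : ∑ i, rt n i = 0 := by
  have h0 : ∀ i : Fin n, rt n i = ((i : ℕ) : ℤ) +
      if i = ⟨0, by omega⟩ then -∑ j : Fin n, ((j : ℕ) : ℤ) else 0 := by
    intro i
    unfold rt
    by_cases hi : (i : ℕ) = 0
    · have h1 : i = ⟨0, by omega⟩ := Fin.ext hi
      rw [if_pos hi, if_pos h1, hi]
      simp
    · have h1 : ¬ i = ⟨0, by omega⟩ := fun h => hi (by rw [h])
      rw [if_neg hi, if_neg h1, add_zero]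
  simp only [h0]
  rw [Finset.sum_add_distrib, Finset.sum_ite_eq', if_pos (Finset.mem_univ _)]
  ring

/-- the split polynomial -/
noncomputable def FF (n : ℕ) : ℤ[X] := ∏ i : Fin n, (X - C (rt n i))

theorem FF_monic (n : ℕ) : (FF n).Monic := monic_prod_of_monic _ _ fun i _ => monic_X_sub_C _

theorem FF_natDegree (n : ℕ) : (FF n).natDegree = n := by
  unfold FF
  rw [natDegree_prod_of_monic _ _ (fun i _ => monic_X_sub_C _)]
  simp only [natDegree_X_sub_C, Finset.sum_const, Finset.card_univ, Fintype.card_fin, smul_eq_mul,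
    mul_one]

theorem FF_eq (n : ℕ) (hn : 2 ≤ n) : pol n (fun i => (FF n).coeff (i : ℕ)) = FF n := by
  ext m
  rcases lt_trichotomy m (n - 1) with h | h | h
  · have h1 := pol_coeff n (fun i => (FF n).coeff (i : ℕ)) ⟨m, h⟩
    exact h1
  · rw [h, pol_coeff_pred n hn]
    have h1 := prod_X_sub_C_coeff_card_pred (Finset.univ : Finset (Fin n)) (rt n)
      (by rw [Finset.card_univ, Fintype.card_fin]; omega)
    rw [Finset.card_univ, Fintype.card_fin, rt_sum n (by omega), neg_zero] at h1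
    exact h1.symm
  · rcases Nat.lt_or_ge n m with h2 | h2
    · rw [coeff_eq_zero_of_natDegree_lt (by rw [pol_natDegree n hn]; exact h2),
        coeff_eq_zero_of_natDegree_lt (by rw [FF_natDegree n]; exact h2)]
    · have h3 : m = n := by omega
      have h4 := (pol_monic n hn (fun i => (FF n).coeff (i : ℕ))).coeff_natDegree
      have h5 := (FF_monic n).coeff_natDegree
      rw [pol_natDegree n hn] at h4
      rw [FF_natDegree n] at h5
      rw [h3, h4, h5]

/-- the derivative at a root -/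
noncomputable def dd (n : ℕ) (i : Fin n) : ℤ := ∏ j ∈ Finset.univ.erase i, (rt n i - rt n j)

theorem eval_FF (n : ℕ) (i : Fin n) : (FF n).eval (rt n i) = 0 := by
  unfold FF
  rw [eval_prod]
  apply Finset.prod_eq_zero (Finset.mem_univ i)
  simp

theorem eval_dFF (n : ℕ) (i : Fin n) : (derivative (FF n)).eval (rt n i) = dd n i := by
  have h1 : FF n = (X - C (rt n i)) * ∏ j ∈ Finset.univ.erase i, (X - C (rt n j)) := by
    unfold FF
    rw [Finset.mul_prod_erase Finset.univ (fun j => (X - C (rt n j) : ℤ[X])) (Finset.mem_univ i)]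
  rw [h1, derivative_mul, eval_add, eval_mul, eval_mul]
  simp only [derivative_sub, derivative_X, derivative_C, sub_zero, eval_one, one_mul, eval_sub,
    eval_X, eval_C, sub_self, zero_mul, add_zero]
  rw [eval_prod]
  unfold dd
  refine Finset.prod_congr rfl fun j _ => ?_
  simp

theorem dd_ne (n : ℕ) (i : Fin n) : dd n i ≠ 0 := by
  unfold dd
  rw [Finset.prod_ne_zero_iff]
  intro j hj
  rw [sub_ne_zero]
  exact fun h => (Finset.mem_erase.mp hj).1 (rt_inj n h).symm

theorem dd_dvd (n : ℕ) (i j : Fin n) (hij : i ≠ j) : (rt n i - rt n j) ∣ dd n i :=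
  Finset.dvd_prod_of_mem _ (Finset.mem_erase.mpr ⟨hij.symm, Finset.mem_univ j⟩)

section

variable {p : ℕ} [hp : Fact p.Prime]

theorem norm_le_of_dvd {a b : ℤ} (h : a ∣ b) : ‖(b : ℤ_[p])‖ ≤ ‖(a : ℤ_[p])‖ := by
  obtain ⟨c, rfl⟩ := h
  rw [Int.cast_mul, norm_mul]
  exact mul_le_of_le_one_right (norm_nonneg _) (PadicInt.norm_le_one _)

theorem aeval_int (F : ℤ[X]) (x : ℤ) : aeval ((x : ℤ) : ℤ_[p]) F = ((F.eval x : ℤ) : ℤ_[p]) := by
  have h := aeval_algebraMap_apply ℤ_[p] x F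
  rw [coe_aeval_eq_eval] at h
  exact h

end

theorem t_LOC : S_LOC := by
  intro n p hn hp
  classical
  have hn2 : 2 ≤ n := by omega
  -- the lower bound for the derivatives
  obtain ⟨D, hD⟩ : ∃ D : ℤ, D = ∏ i, dd n i := ⟨_, rfl⟩
  have hD0 : D ≠ 0 := by
    rw [hD, Finset.prod_ne_zero_iff]
    exact fun i _ => dd_ne n i
  have hδ0 : 0 < ‖(D : ℤ_[p])‖ := by
    rw [norm_pos_iff]
    exact_mod_cast hD0
  have hδ : ∀ i, ‖(D : ℤ_[p])‖ ≤ ‖((dd n i : ℤ) : ℤ_[p])‖ := by
    intro i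
    apply norm_le_of_dvd
    rw [hD]
    exact Finset.dvd_prod_of_mem _ (Finset.mem_univ i)
  have hδ1 : ‖(D : ℤ_[p])‖ ≤ 1 := PadicInt.norm_le_one _
  have hpn : ‖(p : ℤ_[p])‖ < 1 := by
    rw [PadicInt.norm_p]
    exact inv_lt_one_of_one_lt₀ (by exact_mod_cast hp.out.one_lt)
  obtain ⟨t, ht⟩ := exists_pow_lt_of_lt_one (pow_pos hδ0 2) hpn
  refine ⟨t, fun i => (FF n).coeff (i : ℕ), fun a ha => ?_⟩
  choose h hh using ha
  obtain ⟨H, hH⟩ : ∃ H : ℤ[X], H = ∑ i : Fin (n - 1), C (h i) * X ^ (i : ℕ) := ⟨_, rfl⟩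
  have hG : pol n a = FF n + C ((p : ℤ) ^ t) * H := by
    rw [← FF_eq n hn2, hH]
    unfold pol
    rw [add_assoc, Finset.mul_sum, ← Finset.sum_add_distrib]
    congr 1
    refine Finset.sum_congr rfl fun i _ => ?_
    have h1 : a i = (FF n).coeff (i : ℕ) + (p : ℤ) ^ t * h i := by
      have h2 := hh i
      push_cast at h2
      linarith
    rw [h1, C_add, C_mul]
    ring
  have hcast : ((((p : ℤ) ^ t : ℤ)) : ℤ_[p]) = (p : ℤ_[p]) ^ t := by push_cast; rfl
  have hGx : ∀ x : ℤ_[p], aeval x (pol n a) = aeval x (FF n) + (p : ℤ_[p]) ^ t * aeval x H := by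
    intro x
    rw [hG, map_add, map_mul, aeval_C]
    congr 2
  have hGd : ∀ x : ℤ_[p], aeval x (derivative (pol n a)) =
      aeval x (derivative (FF n)) + (p : ℤ_[p]) ^ t * aeval x (derivative H) := by
    intro x
    rw [hG, derivative_add, derivative_C_mul, map_add, map_mul, aeval_C]
    congr 2
  have hsm : ∀ y : ℤ_[p], ‖(p : ℤ_[p]) ^ t * y‖ < ‖(D : ℤ_[p])‖ ^ 2 := by
    intro y
    rw [norm_mul, norm_pow]
    exact (mul_le_of_le_one_right (by positivity) (PadicInt.norm_le_one _)).trans_lt ht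
  have hd : ∀ i, ‖aeval ((rt n i : ℤ) : ℤ_[p]) (derivative (pol n a))‖ =
      ‖((dd n i : ℤ) : ℤ_[p])‖ := by
    intro i
    rw [hGd, aeval_int, eval_dFF]
    have h1 : ‖(p : ℤ_[p]) ^ t * aeval ((rt n i : ℤ) : ℤ_[p]) (derivative H)‖ <
        ‖((dd n i : ℤ) : ℤ_[p])‖ := by
      refine (hsm _).trans_le ((?_ : _ ≤ ‖(D : ℤ_[p])‖).trans (hδ i))
      nlinarith
    rw [PadicInt.norm_add_eq_max_of_ne h1.ne', max_eq_left h1.le]
  have hz : ∀ i, ∃ z : ℤ_[p], aeval z (pol n a) = 0 ∧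
      ‖z - ((rt n i : ℤ) : ℤ_[p])‖ < ‖((dd n i : ℤ) : ℤ_[p])‖ := by
    intro i
    have h1 : ‖aeval ((rt n i : ℤ) : ℤ_[p]) (pol n a)‖ <
        ‖aeval ((rt n i : ℤ) : ℤ_[p]) (derivative (pol n a))‖ ^ 2 := by
      rw [hd, hGx, aeval_int, eval_FF, Int.cast_zero, zero_add]
      refine (hsm _).trans_le ?_
      exact pow_le_pow_left₀ hδ0.le (hδ i) 2
    obtain ⟨z, hz1, hz2, -, -⟩ := hensels_lemma h1
    rw [hd] at hz2
    exact ⟨z, hz1, hz2⟩
  choose z hz1 hz2 using hz
  have hinj : Function.Injective z := by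
    intro i j hij
    by_contra hne
    have h1 : ‖((rt n i - rt n j : ℤ) : ℤ_[p])‖ ≤
        max ‖z i - ((rt n i : ℤ) : ℤ_[p])‖ ‖z j - ((rt n j : ℤ) : ℤ_[p])‖ := by
      have h2 : ((rt n i - rt n j : ℤ) : ℤ_[p]) =
          -(z i - ((rt n i : ℤ) : ℤ_[p])) + (z j - ((rt n j : ℤ) : ℤ_[p])) := by
        rw [hij]
        push_cast
        ring
      rw [h2]
      refine (PadicInt.nonarchimedean _ _).trans ?_
      rw [norm_neg]
    have h3 : ‖z i - ((rt n i : ℤ) : ℤ_[p])‖ < ‖((rt n i - rt n j : ℤ) : ℤ_[p])‖ :=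
      (hz2 i).trans_le (norm_le_of_dvd (dd_dvd n i j hne))
    have h4 : ‖z j - ((rt n j : ℤ) : ℤ_[p])‖ < ‖((rt n i - rt n j : ℤ) : ℤ_[p])‖ := by
      refine (hz2 j).trans_le (norm_le_of_dvd ?_)
      have h5 := dd_dvd n j i (fun h => hne h.symm)
      rw [← neg_sub, neg_dvd] at h5
      exact h5
    exact absurd h1 (not_le.mpr (max_lt h3 h4))
  -- the count
  have hmon : (pol n a).Monic := pol_monic n hn2 a
  have hinjc : Function.Injective (fun i : Fin n => ((z i : ℤ_[p]) : ℚ_[p])) := by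
    intro i j hij
    exact hinj (Subtype.ext hij)
  have hroot : ∀ i, aeval ((z i : ℤ_[p]) : ℚ_[p]) (pol n a) = 0 := by
    intro i
    have h1 := aeval_algebraMap_apply ℚ_[p] (z i) (pol n a)
    rw [hz1 i, map_zero] at h1
    exact h1
  have hset : {x : ℚ_[p] | aeval x (pol n a) = 0} =
      (((pol n a).map (algebraMap ℤ ℚ_[p])).roots.toFinset : Set ℚ_[p]) := by
    ext x
    rw [Set.mem_ofPred_eq, Finset.mem_coe, Multiset.mem_toFinset,
      mem_roots (hmon.map _).ne_zero, IsRoot, eval_map_algebraMap]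
  have hfin : {x : ℚ_[p] | aeval x (pol n a) = 0}.Finite := by
    rw [hset]
    exact Finset.finite_toSet _
  apply le_antisymm
  · rw [hset, Set.ncard_coe_finset]
    refine (Multiset.toFinset_card_le _).trans ((card_roots' _).trans ?_)
    rw [hmon.natDegree_map, pol_natDegree n hn2]
  · have h1 : (Set.range (fun i : Fin n => ((z i : ℤ_[p]) : ℚ_[p]))).ncard = n := by
      rw [← Set.image_univ, Set.ncard_image_of_injective _ hinjc, Set.ncard_univ, Nat.card_eq_fintype_card,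
        Fintype.card_fin]
    have h2 : Set.range (fun i : Fin n => ((z i : ℤ_[p]) : ℚ_[p])) ⊆
        {x : ℚ_[p] | aeval x (pol n a) = 0} := by
      rintro x ⟨i, rfl⟩
      exact hroot i
    have h3 := Set.ncard_le_ncard h2 hfin
    rw [h1] at h3
    exact h3

end Pool.Agent.D0H52.SG
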